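import Pool.Agent.R271.Weak

/-!
# Daugavet index at least one does not force weakly open sets of diameter two
-/

open Filter Topology Metric Set

namespace Pool.Agent.Results.MP_4410f0_an.IndexOneSmallSlices

/-- A nonempty relatively weakly open subset of the closed unit ball. -/
def RelWeakOpen {X : Type*} [NormedAddCommGroup X] [NormedSpace ℝ X] (W : Set X) : Prop :=
  W.Nonempty ∧ ∃ U : Set (WeakSpace ℝ X), IsOpen U ∧
    W = {y : X | y ∈ closedBall (0 : X) 1 ∧ toWeakSpace ℝ X y ∈ U}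

/-- The Daugavet index of thickness. -/
noncomputable def daugavetIndex (X : Type*) [NormedAddCommGroup X] [NormedSpace ℝ X] : ℝ :=
  sInf {r : ℝ | 0 < r ∧ ∃ x : X, ‖x‖ = 1 ∧ ∃ W : Set X, RelWeakOpen W ∧ W ⊆ closedBall x r}

/-- A slice of the closed unit ball. -/
def IsSlice {X : Type*} [NormedAddCommGroup X] [NormedSpace ℝ X] (S : Set X) : Prop :=
  ∃ (f : StrongDual ℝ X) (α : ℝ), ‖f‖ = 1 ∧ 0 < α ∧
    S = {y : X | y ∈ closedBall (0 : X) 1 ∧ 1 - α < f y}

/-- The renorming of `c` used for the example, as a space of pairs of continuous functions on the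
one-point compactification of `ℕ`. -/
def ExSub : Submodule ℝ (C(OnePoint ℕ, ℝ) × C(OnePoint ℕ, ℝ)) where
  carrier := {p | ∀ x, p.1 x + p.2 x = p.1 OnePoint.infty}
  add_mem' := by
    intro p q hp hq x
    have h1 := hp x
    have h2 := hq x
    simp only [Prod.fst_add, Prod.snd_add, ContinuousMap.add_apply]
    linarith
  zero_mem' := by intro x; simp
  smul_mem' := by
    intro c p hp x
    have h1 := hp x
    simp only [Prod.smul_fst, Prod.smul_snd, ContinuousMap.smul_apply, smul_eq_mul]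
    rw [← mul_add, h1]

lemma isClosed_ExSub : IsClosed (ExSub : Set (C(OnePoint ℕ, ℝ) × C(OnePoint ℕ, ℝ))) := by
  have : (ExSub : Set (C(OnePoint ℕ, ℝ) × C(OnePoint ℕ, ℝ))) =
      ⋂ x : OnePoint ℕ, {p | p.1 x + p.2 x = p.1 OnePoint.infty} := by
    ext p
    simp only [Set.mem_iInter]; rfl
  rw [this]
  apply isClosed_iInter
  intro x
  apply isClosed_eq
  · exact ((continuous_eval_const x).comp continuous_fst).add
      ((continuous_eval_const x).comp continuous_snd)
  · exact (continuous_eval_const _).comp continuous_fst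

/-- The space of the example. -/
def Ex : Type := ExSub

noncomputable instance : NormedAddCommGroup Ex := inferInstanceAs (NormedAddCommGroup ExSub)

noncomputable instance : NormedSpace ℝ Ex := inferInstanceAs (NormedSpace ℝ ExSub)

instance : CompleteSpace Ex := isClosed_ExSub.completeSpace_coe

/-- First component. -/
def fs : Ex →ₗ[ℝ] (OnePoint ℕ → ℝ) where
  toFun p := p.1.1
  map_add' _ _ := rfl
  map_smul' _ _ := rfl

/-- Second component. -/
def sn : Ex →ₗ[ℝ] (OnePoint ℕ → ℝ) where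
  toFun p := p.1.2
  map_add' _ _ := rfl
  map_smul' _ _ := rfl

/-- The indicator of `n`. -/
noncomputable def dl (n : ℕ) : C(OnePoint ℕ, ℝ) :=
  OnePoint.continuousMapMkNat (fun m => if m = n then (1 : ℝ) else 0) 0 (by
    apply tendsto_const_nhds.congr'
    filter_upwards [eventually_gt_atTop n] with m hm
    rw [if_neg (by omega)])

lemma dl_infty (n : ℕ) : dl n OnePoint.infty = 0 := rfl

lemma dl_coe (n m : ℕ) : dl n (m : OnePoint ℕ) = if m = n then (1 : ℝ) else 0 := rfl

/-- The `n`-th vector. -/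
noncomputable def ev (n : ℕ) : Ex := (⟨(-dl n, dl n), fun x => by
  simp [dl_infty]⟩ : ExSub)

lemma fs_ev (n : ℕ) (x : OnePoint ℕ) : fs (ev n) x = - dl n x := rfl

lemma sn_ev (n : ℕ) (x : OnePoint ℕ) : sn (ev n) x = dl n x := rfl

lemma add_eq (p : Ex) (x : OnePoint ℕ) : fs p x + sn p x = fs p OnePoint.infty := p.2 x

lemma snd_infty (p : Ex) : sn p OnePoint.infty = 0 := by
  have := add_eq p OnePoint.infty
  linarith

lemma snd_tendsto (p : Ex) : Tendsto (fun n : ℕ => sn p (n : OnePoint ℕ)) atTop (𝓝 0) := by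
  have h7 : Tendsto (fun n : ℕ => (n : OnePoint ℕ)) atTop (𝓝 OnePoint.infty) := by
    have := OnePoint.tendsto_coe_infty (X := ℕ)
    rwa [coclosedCompact_eq_cocompact, cocompact_eq_cofinite, Nat.cofinite_eq_atTop] at this
  have h8 := (p.1.2.continuous.tendsto OnePoint.infty).comp h7
  have h9 : p.1.2 OnePoint.infty = 0 := snd_infty p
  rw [h9] at h8
  exact h8

lemma norm_le_iff (p : Ex) {C : ℝ} (hC : 0 ≤ C) :
    ‖p‖ ≤ C ↔ ∀ x, |fs p x| ≤ C ∧ |sn p x| ≤ C := by
  have h1 : ‖p‖ = max ‖p.1.1‖ ‖p.1.2‖ := rfl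
  rw [h1, max_le_iff, ContinuousMap.norm_le _ hC, ContinuousMap.norm_le _ hC]
  simp only [Real.norm_eq_abs]
  exact ⟨fun h x => ⟨h.1 x, h.2 x⟩, fun h => ⟨fun x => (h x).1, fun x => (h x).2⟩⟩

lemma abs_le_norm (p : Ex) (x : OnePoint ℕ) : |fs p x| ≤ ‖p‖ ∧ |sn p x| ≤ ‖p‖ :=
  (norm_le_iff p (norm_nonneg _)).1 le_rfl x

lemma sum_dl (F : Finset ℕ) (ε : ℕ → ℝ) (m : ℕ) :
    ∑ i ∈ F, ε i * dl i (m : OnePoint ℕ) = if m ∈ F then ε m else 0 := by
  simp only [dl_coe, mul_ite, mul_one, mul_zero]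
  rw [Finset.sum_ite_eq F m ε]

lemma ev_wuc (F : Finset ℕ) (ε : ℕ → ℝ) (hε : ∀ i, |ε i| ≤ 1) : ‖∑ i ∈ F, ε i • ev i‖ ≤ 1 := by
  rw [norm_le_iff _ zero_le_one]
  intro x
  have e1 : fs (∑ i ∈ F, ε i • ev i) x = -∑ i ∈ F, ε i * dl i x := by
    rw [map_sum, Finset.sum_apply, ← Finset.sum_neg_distrib]
    apply Finset.sum_congr rfl
    intro i _
    rw [map_smul, Pi.smul_apply, fs_ev, smul_eq_mul, mul_neg]
  have e2 : sn (∑ i ∈ F, ε i • ev i) x = ∑ i ∈ F, ε i * dl i x := by
    rw [map_sum, Finset.sum_apply]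
    apply Finset.sum_congr rfl
    intro i _
    rw [map_smul, Pi.smul_apply, sn_ev, smul_eq_mul]
  rw [e1, e2, abs_neg, and_self]
  induction x using OnePoint.rec with
  | infty => simp [dl_infty]
  | coe m =>
    rw [sum_dl]
    split_ifs
    · exact hε m
    · simp

lemma ev_tendsto (f : StrongDual ℝ Ex) : Tendsto (fun n => f (ev n)) atTop (𝓝 0) :=
  R271.tendsto_zero_of_wuc ev_wuc f

/-- The constant pair `(1, 0)`. -/
noncomputable def cst : Ex := (⟨(1, 0), fun x => by simp⟩ : ExSub)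

lemma fs_cst (x : OnePoint ℕ) : fs cst x = 1 := rfl

lemma sn_cst (x : OnePoint ℕ) : sn cst x = 0 := rfl

lemma norm_cst : ‖cst‖ = 1 := by
  apply le_antisymm
  · rw [norm_le_iff _ zero_le_one]
    intro x
    rw [fs_cst, sn_cst]; simp
  · have := (abs_le_norm cst OnePoint.infty).1
    rw [fs_cst] at this
    simpa using this

instance : Nontrivial Ex := ⟨⟨cst, 0, by
  intro h
  have := norm_cst
  rw [h, norm_zero] at this
  norm_num at this⟩⟩

/-- The value at infinity of the first component. -/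
noncomputable def valInf : StrongDual ℝ Ex :=
  LinearMap.mkContinuous
    { toFun := fun p : Ex => fs p OnePoint.infty
      map_add' := by intro p q; rw [map_add]; rfl
      map_smul' := by intro c p; rw [map_smul]; rfl } 1 (by
    intro p
    rw [one_mul]
    exact (abs_le_norm p OnePoint.infty).1)

lemma valInf_apply (p : Ex) : valInf p = fs p OnePoint.infty := rfl

lemma norm_valInf : ‖valInf‖ = 1 := by
  apply le_antisymm
  · exact LinearMap.mkContinuous_norm_le _ zero_le_one _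
  · have h1 := valInf.le_opNorm cst
    rw [norm_cst, mul_one, valInf_apply, fs_cst] at h1
    simpa using h1

lemma radius_ge (x : Ex) (W : Set Ex) (hW : RelWeakOpen W) (r : ℝ) (hWr : W ⊆ closedBall x r) :
    1 ≤ r := by
  obtain ⟨⟨p, hpW⟩, U, hU, rfl⟩ := hW
  obtain ⟨hpB, hpU⟩ := hpW
  have hp1 : ‖p‖ ≤ 1 := by simpa using hpB
  set t := fs p OnePoint.infty with ht
  have ht1 : |t| ≤ 1 := ((abs_le_norm p OnePoint.infty).1).trans hp1
  have ht2 := abs_le.1 ht1
  set h : ℝ := if 0 ≤ t then 1 else -1 with hh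
  have hh1 : |h| = 1 := by rw [hh]; split_ifs <;> simp
  have hth : |t - h| ≤ 1 := by
    rw [hh, abs_le]
    split_ifs with h0
    · constructor <;> linarith
    · push Not at h0
      constructor <;> linarith
  let q : ℕ → Ex := fun n => p + (h - sn p (n : OnePoint ℕ)) • ev n
  have efs : ∀ n y, fs (q n) y = fs p y - (h - sn p (n : OnePoint ℕ)) * dl n y := by
    intro n y
    simp only [q]
    rw [map_add, map_smul, Pi.add_apply, Pi.smul_apply, fs_ev, smul_eq_mul]
    ring
  have esn : ∀ n y, sn (q n) y = sn p y + (h - sn p (n : OnePoint ℕ)) * dl n y := by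
    intro n y
    simp only [q]
    rw [map_add, map_smul, Pi.add_apply, Pi.smul_apply, sn_ev, smul_eq_mul]
  have hq1 : ∀ n, ‖q n‖ ≤ 1 := by
    intro n
    rw [norm_le_iff _ zero_le_one]
    intro y
    have hpy := abs_le_norm p y
    rw [efs, esn]
    induction y using OnePoint.rec with
    | infty =>
      rw [dl_infty]; simp only [mul_zero, sub_zero, add_zero]
      exact ⟨hpy.1.trans hp1, hpy.2.trans hp1⟩
    | coe m =>
      rw [dl_coe]
      split_ifs with hmn
      · subst hmn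
        have h3 := add_eq p (m : OnePoint ℕ)
        have e3 : fs p (m : OnePoint ℕ) - (h - sn p (m : OnePoint ℕ)) * 1 = t - h := by
          rw [ht]; linarith
        have e4 : sn p (m : OnePoint ℕ) + (h - sn p (m : OnePoint ℕ)) * 1 = h := by ring
        rw [e3, e4]
        exact ⟨hth, hh1.le⟩
      · simp only [mul_zero, sub_zero, add_zero]
        exact ⟨hpy.1.trans hp1, hpy.2.trans hp1⟩
  have hqw : Tendsto (fun n => toWeakSpace ℝ Ex (q n)) atTop (𝓝 (toWeakSpace ℝ Ex p)) := by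
    rw [R271.tendsto_weak_iff]
    intro f
    have e5 : ∀ n, f (q n) = f p + (h - sn p (n : OnePoint ℕ)) * f (ev n) := by
      intro n
      simp only [q, map_add, map_smul, smul_eq_mul]
    simp only [e5]
    have h6 : Tendsto (fun n : ℕ => (h - sn p (n : OnePoint ℕ)) * f (ev n)) atTop (𝓝 0) := by
      apply squeeze_zero_norm (a := fun n => 2 * ‖f (ev n)‖)
      · intro n
        rw [norm_mul]
        apply mul_le_mul_of_nonneg_right _ (norm_nonneg _)
        have := (abs_le_norm p (n : OnePoint ℕ)).2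
        calc ‖h - sn p (n : OnePoint ℕ)‖ ≤ ‖h‖ + ‖sn p (n : OnePoint ℕ)‖ := norm_sub_le _ _
          _ ≤ 1 + 1 := by
            apply add_le_add
            · exact hh1.le
            · exact this.trans hp1
          _ = 2 := by norm_num
      · simpa using ((ev_tendsto f).norm).const_mul 2
    simpa using h6.const_add (f p)
  have hev : ∀ᶠ n in atTop, q n ∈ closedBall x r := by
    filter_upwards [hqw.eventually (hU.mem_nhds hpU)] with n hn
    exact hWr ⟨by simpa using hq1 n, hn⟩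
  -- coordinates of `x` tend to zero
  have hx0 : Tendsto (fun n : ℕ => |sn x (n : OnePoint ℕ)|) atTop (𝓝 0) := by
    simpa using (snd_tendsto x).abs
  have h9 : Tendsto (fun n : ℕ => 1 - |sn x (n : OnePoint ℕ)|) atTop (𝓝 1) := by
    simpa using hx0.const_sub 1
  apply le_of_tendsto h9
  filter_upwards [hev] with n hn
  rw [mem_closedBall, dist_eq_norm] at hn
  have h10 := (abs_le_norm (q n - x) (n : OnePoint ℕ)).2.trans hn
  have e6 : sn (q n - x) (n : OnePoint ℕ) = h - sn x (n : OnePoint ℕ) := by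
    rw [map_sub, Pi.sub_apply, esn, dl_coe, if_pos rfl]
    ring
  rw [e6] at h10
  have h11 := abs_sub_abs_le_abs_sub h (sn x (n : OnePoint ℕ))
  rw [hh1] at h11
  linarith

lemma isSlice_relWeakOpen {X : Type*} [NormedAddCommGroup X] [NormedSpace ℝ X] {S : Set X}
    (hS : IsSlice S) : RelWeakOpen S := by
  obtain ⟨f, α, hf, hα, rfl⟩ := hS
  refine ⟨?_, {w : WeakSpace ℝ X | 1 - α < f ((toWeakSpace ℝ X).symm w)},
    isOpen_lt continuous_const (R271.continuous_dual_weak f), rfl⟩
  by_contra hcon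
  rw [Set.not_nonempty_iff_eq_empty] at hcon
  have h1 : ∀ y : X, ‖y‖ ≤ 1 → f y ≤ 1 - α := by
    intro y hy
    by_contra h
    have : y ∈ ({y : X | y ∈ closedBall (0 : X) 1 ∧ 1 - α < f y} : Set X) :=
      ⟨by simpa using hy, not_le.1 h⟩
    rw [hcon] at this
    exact this
  have h0 := h1 0 (by simp)
  rw [map_zero] at h0
  have h2 : ‖f‖ ≤ 1 - α := by
    apply f.opNorm_le_of_unit_norm h0
    intro y hy
    rw [Real.norm_eq_abs, abs_le]
    constructor
    · have := h1 (-y) (by rw [norm_neg, hy])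
      rw [map_neg] at this
      linarith
    · exact h1 y hy.le
  linarith

theorem result : ∃ (X : Type) (_ : NormedAddCommGroup X) (_ : NormedSpace ℝ X),
    CompleteSpace X ∧ Nontrivial X ∧ 1 ≤ daugavetIndex X ∧
      ∀ ε : ℝ, 0 < ε → ∃ S : Set X, IsSlice S ∧ RelWeakOpen S ∧ diam S ≤ 1 + ε := by
  refine ⟨Ex, inferInstance, inferInstance, inferInstance, inferInstance, ?_, ?_⟩
  · apply le_csInf
    · refine ⟨2, by norm_num, cst, norm_cst, closedBall 0 1, ⟨⟨0, by simp⟩, Set.univ,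
        isOpen_univ, by ext y; simp⟩, ?_⟩
      intro y hy
      rw [mem_closedBall, dist_eq_norm]
      have hy' : ‖y‖ ≤ 1 := by simpa using hy
      calc ‖y - cst‖ ≤ ‖y‖ + ‖cst‖ := norm_sub_le _ _
        _ ≤ 1 + 1 := add_le_add hy' norm_cst.le
        _ = 2 := by norm_num
    · rintro r ⟨-, x, -, W, hW, hWr⟩
      exact radius_ge x W hW r hWr
  · intro ε hε
    have hsl : IsSlice {y : Ex | y ∈ closedBall (0 : Ex) 1 ∧ 1 - ε < valInf y} :=
      ⟨valInf, ε, norm_valInf, hε, rfl⟩
    refine ⟨_, hsl, isSlice_relWeakOpen hsl, ?_⟩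
    apply diam_le_of_forall_dist_le (by linarith)
    rintro p ⟨hp1, hp2⟩ q ⟨hq1, hq2⟩
    have key : ∀ p : Ex, p ∈ closedBall (0 : Ex) 1 → 1 - ε < valInf p → ∀ y,
        (-ε ≤ fs p y ∧ fs p y ≤ 1) ∧ (-ε ≤ sn p y ∧ sn p y ≤ 1) := by
      intro p hp1 hp2 y
      have hp1' : ‖p‖ ≤ 1 := by simpa using hp1
      rw [valInf_apply] at hp2
      have h1 := abs_le_norm p y
      have h2 := add_eq p y
      have h3 := abs_le.1 (h1.1.trans hp1')
      have h4 := abs_le.1 (h1.2.trans hp1')
      refine ⟨⟨by linarith, h3.2⟩, ⟨by linarith, h4.2⟩⟩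
    rw [dist_eq_norm, norm_le_iff _ (by linarith)]
    intro y
    rw [map_sub, map_sub, Pi.sub_apply, Pi.sub_apply, abs_le, abs_le]
    have h1 := key p hp1 hp2 y
    have h2 := key q hq1 hq2 y
    refine ⟨⟨?_, ?_⟩, ⟨?_, ?_⟩⟩ <;> linarith [h1.1.1, h1.1.2, h1.2.1, h1.2.2, h2.1.1, h2.1.2,
      h2.2.1, h2.2.2]

end Pool.Agent.Results.MP_4410f0_an.IndexOneSmallSlices
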